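import Pool.Agent.H38.TT.RankTools
import Pool.Agent.H75.TT.PinchDefs

/-!
Lemma L of MP_ca4e36_al: the dimension count.
-/

set_option autoImplicit false

open Matrix

namespace Pool.Agent.H38.TT

section Blocks

variable {E : Type*} [Fintype E] [DecidableEq E]

/-- diagonal projection -/
def Pr (p : E → Prop) [DecidablePred p] : Matrix E E ℝ := diagonal fun e => if p e then 1 else 0

theorem Pr_apply_mul (p q : E → Prop) [DecidablePred p] [DecidablePred q] (M : Matrix E E ℝ)
    (e e' : E) : (Pr p * M * Pr q) e e' = if p e ∧ q e' then M e e' else 0 := by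
  unfold Pr
  rw [mul_diagonal, diagonal_mul]
  by_cases h1 : p e <;> by_cases h2 : q e' <;> simp [h1, h2]

theorem Pr_mul (p q : E → Prop) [DecidablePred p] [DecidablePred q] :
    Pr p * Pr q = Pr fun e => p e ∧ q e := by
  unfold Pr
  rw [diagonal_mul_diagonal]
  congr 1
  ext e
  by_cases h1 : p e <;> by_cases h2 : q e <;> simp [h1, h2]

theorem Pr_idem (p : E → Prop) [DecidablePred p] : Pr p * Pr p = Pr p := by
  unfold Pr
  rw [diagonal_mul_diagonal]
  congr 1
  ext e
  by_cases h1 : p e <;> simp [h1]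

theorem Pr_disj (p q : E → Prop) [DecidablePred p] [DecidablePred q] (h : ∀ e, ¬ (p e ∧ q e)) :
    Pr p * Pr q = 0 := by
  rw [Pr_mul]
  unfold Pr
  simp [h]

theorem Pr_add (p q r : E → Prop) [DecidablePred p] [DecidablePred q] [DecidablePred r]
    (h : ∀ e, ¬ (p e ∧ q e)) (hr : ∀ e, r e ↔ p e ∨ q e) : Pr p + Pr q = Pr r := by
  unfold Pr
  rw [diagonal_add]
  congr 1
  ext e
  have h1 := h e
  have h2 := hr e
  by_cases h3 : p e <;> by_cases h4 : q e <;> simp_all

theorem Pr_rank (p : E → Prop) [DecidablePred p] : (Pr p).rank = (Finset.univ.filter p).card := by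
  unfold Pr
  rw [rank_diagonal, Fintype.card_subtype]
  congr 1
  ext e
  simp

theorem Pr_true : Pr (fun _ : E => True) = 1 := by
  unfold Pr
  simp

/-- block of `M` -/
def res (M : Matrix E E ℝ) (p : E → Prop) [DecidablePred p] : Matrix E E ℝ := Pr p * M * Pr p

theorem res_apply (M : Matrix E E ℝ) (p : E → Prop) [DecidablePred p] (e e' : E) :
    res M p e e' = if p e ∧ p e' then M e e' else 0 := Pr_apply_mul _ _ _ _ _

/-- ranks of block triangular matrices -/
theorem rank_blocks {κ : Type*} [DecidableEq κ] (M : Matrix E E ℝ) (b : E → κ) (f : κ → ℤ)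
    (hM : ∀ e e', M e e' ≠ 0 → b e = b e' ∨ f (b e) < f (b e')) (Λ : Finset κ) :
    ∑ a ∈ Λ, (res M fun e => b e = a).rank ≤ (res M fun e => b e ∈ Λ).rank := by
  induction Λ using Finset.induction_on_max_value f with
  | empty => simp
  | insert a s ha hmax ih =>
    rw [Finset.sum_insert ha]
    set P := Pr fun e => b e ∈ s with hP
    set Q := Pr fun e => b e = a with hQ
    set D := res M fun e => b e ∈ insert a s with hD
    have hdis : ∀ e, ¬ (b e ∈ s ∧ b e = a) := fun e h => ha (h.2 ▸ h.1)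
    have hdis' : ∀ e, ¬ (b e = a ∧ b e ∈ s) := fun e h => ha (h.1 ▸ h.2)
    have h1 : P * D * P = res M fun e => b e ∈ s := by
      ext e e'
      rw [hP, Pr_apply_mul, hD, res_apply, res_apply]
      by_cases h3 : b e ∈ s <;> by_cases h4 : b e' ∈ s <;> simp [h3, h4]
    have h2 : Q * D * Q = res M fun e => b e = a := by
      ext e e'
      rw [hQ, Pr_apply_mul, hD, res_apply, res_apply]
      by_cases h3 : b e = a <;> by_cases h4 : b e' = a <;> simp [h3, h4]
    have h3 : Q * D * P = 0 := by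
      ext e e'
      rw [hQ, hP, Pr_apply_mul, hD, res_apply, Matrix.zero_apply]
      by_cases h3 : b e = a ∧ b e' ∈ s
      · rw [if_pos h3]
        split_ifs
        · by_contra h5
          rcases hM e e' h5 with h6 | h6
          · exact ha (h3.1 ▸ h6 ▸ h3.2)
          · have := hmax _ h3.2
            rw [h3.1] at h6
            omega
        · rfl
      · rw [if_neg h3]
    have h4 := two_block_rank (P := P) (Q := Q) (D := D) (Pr_idem _) (Pr_idem _)
      (Pr_disj _ _ hdis) (Pr_disj _ _ hdis') h3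
    rw [h1, h2] at h4
    omega

theorem eq_zero_of_rank {K : Matrix E E ℝ} (h : K.rank = 0) : K = 0 := by
  unfold Matrix.rank at h
  rw [Submodule.finrank_eq_zero, LinearMap.range_eq_bot] at h
  have : K.mulVecLin = (0 : Matrix E E ℝ).mulVecLin := by rw [h]; simp
  ext i j
  have h2 := congrFun (LinearMap.congr_fun this (Pi.single j 1)) i
  simpa using h2

/-- the three block inequality for an acyclic matrix -/
theorem three_blocks (m : E → ℤ) {D H : Matrix E E ℝ} (hD : D * D = 0) (hDH : D * H + H * D = 1)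
    (hm : ∀ e e', D e e' ≠ 0 → m e ≤ m e') :
    (Finset.univ.filter fun e => m e = 0).card + 2 * (res D fun e => m e < 0).rank +
      2 * (res D fun e => 0 < m e).rank ≤ 2 * (res D fun e => m e = 0).rank +
      (Finset.univ.filter fun e => m e < 0).card + (Finset.univ.filter fun e => 0 < m e).card := by
  set Pm := Pr fun e => m e < 0 with hPm
  set P0 := Pr fun e => m e = 0 with hP0
  set Pp := Pr fun e => 0 < m e with hPp
  set Q := Pr fun e => 0 ≤ m e with hQ
  have d1 : ∀ e, ¬ (0 ≤ m e ∧ m e < 0) := fun e h => by omega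
  have d1' : ∀ e, ¬ (m e < 0 ∧ 0 ≤ m e) := fun e h => by omega
  have d2 : ∀ e, ¬ (m e = 0 ∧ 0 < m e) := fun e h => by omega
  have d2' : ∀ e, ¬ (0 < m e ∧ m e = 0) := fun e h => by omega
  have s1 : Q + Pm = 1 := by
    rw [← Pr_true, hQ, hPm]
    exact Pr_add _ _ _ d1 fun e => by simp only [true_iff]; omega
  have s2 : P0 + Pp = Q := by
    rw [hP0, hPp, hQ]
    exact Pr_add _ _ _ d2 fun e => by omega
  have hrank : Fintype.card E ≤ 2 * D.rank := by
    have h1 : (1 : Matrix E E ℝ).rank ≤ D.rank + D.rank := by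
      rw [← hDH]
      exact (rank_add_le' _ _).trans (Nat.add_le_add (rank_mul_le_left _ _) (rank_mul_le_right _ _))
    rw [Matrix.rank_one] at h1
    omega
  have hQDPm : Q * D * Pm = 0 := by
    ext e e'
    rw [hQ, hPm, Pr_apply_mul, Matrix.zero_apply]
    by_cases h : 0 ≤ m e ∧ m e' < 0
    · rw [if_pos h]
      by_contra h5
      have := hm e e' h5
      omega
    · rw [if_neg h]
  have hPpDP0 : Pp * D * P0 = 0 := by
    ext e e'
    rw [hPp, hP0, Pr_apply_mul, Matrix.zero_apply]
    by_cases h : 0 < m e ∧ m e' = 0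
    · rw [if_pos h]
      by_contra h5
      have := hm e e' h5
      omega
    · rw [if_neg h]
  have tr : ∀ (p : E → Prop) [DecidablePred p], (Pr p)ᵀ = Pr p := fun p _ => by
    unfold Pr; exact diagonal_transpose _
  -- step 1
  have k1 := two_block (P := Q) (Q := Pm) (D := Dᵀ) (Pr_idem _) (Pr_idem _) (Pr_disj _ _ d1)
    (Pr_disj _ _ d1') (by rw [s1, one_mul]) (by rw [s1, mul_one]) (by
      have := congrArg Matrix.transpose hQDPm
      rw [transpose_mul, transpose_mul, hQ, hPm, tr, tr, transpose_zero] at this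
      rw [hQ, hPm, mul_assoc]
      exact this) (by rw [← transpose_mul, hD, transpose_zero])
  have e1 : (Pm * Dᵀ * Pm).rank = (res D fun e => m e < 0).rank := by
    rw [← Matrix.rank_transpose, transpose_mul, transpose_mul, transpose_transpose, hPm, tr,
      ← mul_assoc]
    rfl
  have e2 : (Q * Dᵀ * Q).rank = (Q * D * Q).rank := by
    rw [← Matrix.rank_transpose, transpose_mul, transpose_mul, transpose_transpose, hQ, tr,
      ← mul_assoc]
  rw [s1, e1, e2, Matrix.rank_transpose, Matrix.rank_one] at k1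
  -- step 2
  have hQD : Q * D = Q * D * Q := by
    calc Q * D = Q * D * (Q + Pm) := by rw [s1, mul_one]
      _ = Q * D * Q := by rw [mul_add, hQDPm, add_zero]
  have hQQ : Q * Q = Q := Pr_idem _
  have hYY : (Q * D * Q) * (Q * D * Q) = 0 := by
    rw [← hQD]
    calc Q * D * (Q * D) = Q * D * Q * D := by simp only [mul_assoc]
      _ = Q * (D * D) := by rw [← hQD, mul_assoc]
      _ = 0 := by rw [hD, mul_zero]
  have hP0Q : P0 * Q = P0 := by
    rw [← s2, mul_add, hP0, hPp, Pr_idem, Pr_disj _ _ d2, add_zero]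
  have hQP0 : Q * P0 = P0 := by
    rw [← s2, add_mul, hP0, hPp, Pr_idem, Pr_disj _ _ d2', add_zero]
  have hPpQ : Pp * Q = Pp := by
    rw [← s2, mul_add, hP0, hPp, Pr_idem, Pr_disj _ _ d2', zero_add]
  have hQPp : Q * Pp = Pp := by
    rw [← s2, add_mul, hP0, hPp, Pr_idem, Pr_disj _ _ d2, zero_add]
  have conj : ∀ A B : Matrix E E ℝ, A * Q = A → Q * B = B → A * (Q * D * Q) * B = A * D * B := by
    intro A B hA hB
    calc A * (Q * D * Q) * B = (A * Q) * D * (Q * B) := by simp only [mul_assoc]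
      _ = _ := by rw [hA, hB]
  have k2 := two_block (P := P0) (Q := Pp) (D := Q * D * Q) (Pr_idem _) (Pr_idem _)
    (Pr_disj _ _ d2) (Pr_disj _ _ d2')
    (by rw [s2, ← mul_assoc, ← mul_assoc, hQQ]) (by rw [s2, mul_assoc, hQQ])
    (by rw [conj _ _ hPpQ hQP0]; exact hPpDP0) hYY
  rw [s2, conj _ _ hPpQ hQPp, conj _ _ hP0Q hQP0] at k2
  have r1 : Q.rank = (Finset.univ.filter fun e => 0 ≤ m e).card := Pr_rank _
  have r2 : Pm.rank = (Finset.univ.filter fun e => m e < 0).card := Pr_rank _
  have r3 : P0.rank = (Finset.univ.filter fun e => m e = 0).card := Pr_rank _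
  have r4 : Pp.rank = (Finset.univ.filter fun e => 0 < m e).card := Pr_rank _
  have u1 : (res D fun e => m e = 0) = P0 * D * P0 := rfl
  have u2 : (res D fun e => 0 < m e) = Pp * D * Pp := rfl
  rw [u1, u2]
  omega

end Blocks

section Count

variable {E Ω : Type} [Fintype E] [DecidableEq E] [Fintype Ω] [DecidableEq Ω]

/-- homology of the block of weight `μ` -/
noncomputable def hw (wt : E → Ω → ℤ) (D0 : Matrix E E ℝ) (μ : Ω → ℤ) : ℤ :=
  ((Finset.univ.filter fun e => wt e = μ).card : ℤ) - 2 * (res D0 fun e => wt e = μ).rank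

theorem hw_nonneg (wt : E → Ω → ℤ) {D0 : Matrix E E ℝ} (h0 : D0 * D0 = 0)
    (h1 : ∀ e e', D0 e e' ≠ 0 → wt e = wt e') (μ : Ω → ℤ) : 0 ≤ hw wt D0 μ := by
  set P := Pr fun e => wt e = μ with hP
  have hPP : P * P = P := Pr_idem _
  have hcomm : P * D0 * P = P * D0 := by
    ext e e'
    have e1 : (P * D0) e e' = if wt e = μ then D0 e e' else 0 := by
      rw [hP]
      unfold Pr
      rw [diagonal_mul]
      by_cases h2 : wt e = μ <;> simp [h2]
    rw [e1, hP, Pr_apply_mul]
    by_cases h2 : wt e = μ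
    · by_cases h3 : wt e' = μ
      · simp [h2, h3]
      · have : D0 e e' = 0 := by
          by_contra h4
          exact h3 ((h1 e e' h4).symm.trans h2)
        simp [h2, h3, this]
    · simp [h2]
  have hM : (res D0 fun e => wt e = μ) = P * D0 * P := rfl
  obtain ⟨h, K, _, hr, _⟩ := exists_homotopy (P := P) (M := P * D0 * P) hPP
    (by rw [← mul_assoc, ← mul_assoc, hPP]) (by rw [mul_assoc, hPP]) (by
      rw [hcomm]
      calc P * D0 * (P * D0) = P * D0 * P * D0 := by simp only [mul_assoc]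
        _ = P * (D0 * D0) := by rw [hcomm, mul_assoc]
        _ = 0 := by rw [h0, mul_zero])
  unfold hw
  rw [hM]
  have r1 : P.rank = (Finset.univ.filter fun e => wt e = μ).card := Pr_rank _
  omega

theorem hw_act (wt : E → Ω → ℤ) (act : Equiv.Perm Ω → Equiv.Perm E) {D0 : Matrix E E ℝ}
    (hact : ∀ (σ : Equiv.Perm Ω) (e : E) (i : Ω), wt (act σ e) (σ i) = wt e i)
    (hinv : ∀ (σ : Equiv.Perm Ω) (e e' : E), D0 (act σ e) (act σ e') = D0 e e')
    (σ : Equiv.Perm Ω) (μ : Ω → ℤ) : hw wt D0 (fun i => μ (σ.symm i)) = hw wt D0 μ := by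
  have key : ∀ e, wt (act σ e) = (fun i => μ (σ.symm i)) ↔ wt e = μ := by
    intro e
    constructor
    · intro h
      ext i
      rw [← hact σ e i, h]
      simp
    · intro h
      ext i
      rw [← h, ← hact σ e (σ.symm i)]
      simp
  unfold hw
  congr 1
  · have : (Finset.univ.filter fun e => wt e = fun i => μ (σ.symm i)).card =
        (Finset.univ.filter fun e => wt e = μ).card := by
      symm
      apply Finset.card_bij (fun e _ => act σ e)
      · intro e he
        rw [Finset.mem_filter] at he ⊢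
        exact ⟨Finset.mem_univ _, (key e).2 he.2⟩
      · intro e _ e' _ h
        exact (act σ).injective h
      · intro e he
        rw [Finset.mem_filter] at he
        refine ⟨(act σ).symm e, ?_, by simp⟩
        rw [Finset.mem_filter]
        refine ⟨Finset.mem_univ _, (key _).1 ?_⟩
        rw [Equiv.apply_symm_apply]
        exact he.2
    rw [this]
  · have : (res D0 fun e => wt e = fun i => μ (σ.symm i)).rank = (res D0 fun e => wt e = μ).rank := by
      rw [← Matrix.rank_submatrix (res D0 fun e => wt e = fun i => μ (σ.symm i)) (act σ) (act σ)]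
      congr 1
      ext e e'
      rw [submatrix_apply, res_apply, res_apply, hinv]
      simp only [key]
    rw [this]

end Count

theorem lemL : Pool.Agent.H75.TT.LemL := by
  intro E Ω _ _ _ _ star wt act hact N hN hNΩ D D0 H hD hDH hmono hD0 hD0wt hinv
  classical
  -- `D0² = 0`
  have hm : ∀ e e', D e e' ≠ 0 → wt e star ≤ wt e' star := hmono
  have h00 : D0 * D0 = 0 := by
    ext e e'
    rw [Matrix.mul_apply, Matrix.zero_apply]
    by_cases h : wt e star = wt e' star
    · have h1 : (D * D) e e' = 0 := by rw [hD, Matrix.zero_apply]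
      rw [Matrix.mul_apply] at h1
      rw [← h1]
      apply Finset.sum_congr rfl
      intro f _
      by_cases h2 : wt e star = wt f star
      · rw [hD0 e f, hD0 f e', if_pos h2, if_pos (h2.symm.trans h)]
      · rw [hD0 e f, if_neg h2, zero_mul]
        symm
        by_contra h3
        have h4 := hm e f (left_ne_zero_of_mul h3)
        have h5 := hm f e' (right_ne_zero_of_mul h3)
        omega
    · apply Finset.sum_eq_zero
      intro f _
      by_contra h3
      have h4 := hD0wt e f (left_ne_zero_of_mul h3)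
      have h5 := hD0wt f e' (right_ne_zero_of_mul h3)
      exact h (by rw [h4, h5])
  set Λ : Finset (Ω → ℤ) := Finset.univ.image wt with hΛ
  have hmemΛ : ∀ e, wt e ∈ Λ := fun e => Finset.mem_image_of_mem _ (Finset.mem_univ e)
  have hnn : ∀ μ, 0 ≤ hw wt D0 μ := hw_nonneg wt h00 hD0wt
  -- blocks of `D` and `D0`
  have hblock : ∀ μ, (res D fun e => wt e = μ) = res D0 fun e => wt e = μ := by
    intro μ
    ext e e'
    rw [res_apply, res_apply]
    by_cases h : wt e = μ ∧ wt e' = μ
    · rw [if_pos h, if_pos h, hD0, if_pos (by rw [h.1, h.2])]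
    · rw [if_neg h, if_neg h]
  have hDtri : ∀ e e', D e e' ≠ 0 → wt e = wt e' ∨ wt e star < wt e' star := by
    intro e e' h
    rcases (hm e e' h).lt_or_eq with h1 | h1
    · exact Or.inr h1
    · refine Or.inl (hD0wt e e' ?_)
      rw [hD0, if_pos h1]
      exact h
  -- sum of `hw` over a set of weights
  have hsum : ∀ (q : (Ω → ℤ) → Prop) [DecidablePred q], ∑ μ ∈ Λ.filter q, hw wt D0 μ =
      ((Finset.univ.filter fun e => q (wt e)).card : ℤ) -
        2 * ∑ μ ∈ Λ.filter q, ((res D0 fun e => wt e = μ).rank : ℤ) := by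
    intro q _
    unfold hw
    rw [Finset.sum_sub_distrib, ← Finset.mul_sum]
    congr 1
    have h1 : (Finset.univ.filter fun e => q (wt e)).card =
        ∑ μ ∈ Λ.filter q, (Finset.univ.filter fun e => wt e = μ).card := by
      rw [Finset.card_eq_sum_card_fiberwise (f := wt) (t := Λ.filter q)]
      · apply Finset.sum_congr rfl
        intro μ hμ
        congr 1
        ext e
        simp only [Finset.mem_filter, Finset.mem_univ, true_and]
        constructor
        · exact fun h => h.2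
        · intro h
          refine ⟨?_, h⟩
          rw [h]
          exact (Finset.mem_filter.1 hμ).2
      · intro e he
        simp only [Finset.coe_filter, Finset.mem_univ, true_and, Set.mem_ofPred_eq] at he ⊢
        exact ⟨hmemΛ e, he⟩
    rw [h1]
    push_cast
    rfl
  -- rank lower bounds
  have hlow : ∀ (q : (Ω → ℤ) → Prop) [DecidablePred q],
      ∑ μ ∈ Λ.filter q, (res D0 fun e => wt e = μ).rank ≤ (res D fun e => q (wt e)).rank := by
    intro q _
    have h1 := rank_blocks D wt (fun μ => μ star) hDtri (Λ.filter q)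
    have h2 : (res D fun e => wt e ∈ Λ.filter q) = res D fun e => q (wt e) := by
      ext e e'
      rw [res_apply, res_apply]
      simp only [Finset.mem_filter, hmemΛ, true_and]
    rw [h2] at h1
    simp only [hblock] at h1
    exact h1
  -- rank upper bound for the middle block
  have hup : (res D fun e => wt e star = 0).rank ≤
      ∑ μ ∈ Λ.filter (fun μ => μ star = 0), (res D0 fun e => wt e = μ).rank := by
    refine le_trans (le_of_eq ?_) (rank_sum_le' _ _)
    congr 1
    ext e e'
    rw [res_apply, Matrix.sum_apply]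
    simp only [res_apply]
    by_cases h : wt e star = 0 ∧ wt e' star = 0
    · rw [if_pos h]
      have h1 : D e e' = D0 e e' := by rw [hD0, if_pos (by rw [h.1, h.2])]
      rw [h1]
      by_cases h2 : wt e = wt e'
      · rw [Finset.sum_eq_single (wt e)]
        · rw [if_pos ⟨rfl, h2.symm⟩]
        · intro μ _ hne
          rw [if_neg fun h3 => hne h3.1.symm]
        · intro h3
          exact absurd (Finset.mem_filter.2 ⟨hmemΛ e, h.1⟩) h3
      · have h3 : D0 e e' = 0 := by
          by_contra h4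
          exact h2 (hD0wt e e' h4)
        rw [h3]
        symm
        apply Finset.sum_eq_zero
        intro μ _
        split_ifs <;> rfl
    · rw [if_neg h]
      symm
      apply Finset.sum_eq_zero
      intro μ hμ
      rw [Finset.mem_filter] at hμ
      rw [if_neg]
      rintro ⟨h3, h4⟩
      exact h ⟨by rw [h3]; exact hμ.2, by rw [h4]; exact hμ.2⟩
  have h3b := three_blocks (fun e => wt e star) hD hDH hm
  -- `Σ_{μ star = 0} hw ≤ Σ_{μ star ≠ 0} hw`
  have s0 := hsum (fun μ => μ star = 0)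
  have sm := hsum (fun μ => μ star < 0)
  have sp := hsum (fun μ => 0 < μ star)
  have lm := hlow (fun μ => μ star < 0)
  have lp := hlow (fun μ => 0 < μ star)
  have hsplit : ∑ μ ∈ Λ.filter (fun μ => μ star ≠ 0), hw wt D0 μ =
      ∑ μ ∈ Λ.filter (fun μ => μ star < 0), hw wt D0 μ +
        ∑ μ ∈ Λ.filter (fun μ => 0 < μ star), hw wt D0 μ := by
    rw [← Finset.sum_union]
    · congr 1
      ext μ
      simp only [Finset.mem_filter, Finset.mem_union]
      constructor
      · rintro ⟨h1, h2⟩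
        rcases lt_or_gt_of_ne h2 with h3 | h3
        · exact Or.inl ⟨h1, h3⟩
        · exact Or.inr ⟨h1, h3⟩
      · rintro (⟨h1, h2⟩ | ⟨h1, h2⟩)
        · exact ⟨h1, by omega⟩
        · exact ⟨h1, by omega⟩
    · rw [Finset.disjoint_left]
      intro μ h1 h2
      rw [Finset.mem_filter] at h1 h2
      omega
  have hineq : ∑ μ ∈ Λ.filter (fun μ => μ star = 0), hw wt D0 μ ≤
      ∑ μ ∈ Λ.filter (fun μ => μ star ≠ 0), hw wt D0 μ := by
    rw [hsplit, s0, sm, sp]
    have lm' : ∑ μ ∈ Λ.filter (fun μ => μ star < 0), ((res D0 fun e => wt e = μ).rank : ℤ) ≤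
        (res D fun e => wt e star < 0).rank := by exact_mod_cast lm
    have lp' : ∑ μ ∈ Λ.filter (fun μ => 0 < μ star), ((res D0 fun e => wt e = μ).rank : ℤ) ≤
        (res D fun e => 0 < wt e star).rank := by exact_mod_cast lp
    have hup' : ((res D fun e => wt e star = 0).rank : ℤ) ≤
        ∑ μ ∈ Λ.filter (fun μ => μ star = 0), ((res D0 fun e => wt e = μ).rank : ℤ) := by
      exact_mod_cast hup
    omega
  have htot : ∑ μ ∈ Λ, hw wt D0 μ = ∑ μ ∈ Λ.filter (fun μ => μ star = 0), hw wt D0 μ +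
      ∑ μ ∈ Λ.filter (fun μ => μ star ≠ 0), hw wt D0 μ :=
    (Finset.sum_filter_add_sum_filter_not Λ _ _).symm
  -- symmetry
  have hsym : ∀ j : Ω, ∑ μ ∈ Λ.filter (fun μ => μ j ≠ 0), hw wt D0 μ =
      ∑ μ ∈ Λ.filter (fun μ => μ star ≠ 0), hw wt D0 μ := by
    intro j
    set σ := Equiv.swap j star with hσ
    have hΛσ : ∀ μ ∈ Λ, (fun i => μ (σ.symm i)) ∈ Λ := by
      intro μ hμ
      obtain ⟨e, _, rfl⟩ := Finset.mem_image.1 hμ
      rw [hΛ, Finset.mem_image]
      refine ⟨act σ e, Finset.mem_univ _, ?_⟩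
      ext i
      rw [← hact σ e (σ.symm i)]
      simp
    have hss : σ.symm = σ := by rw [hσ, Equiv.symm_swap]
    apply Finset.sum_nbij' (fun μ i => μ (σ.symm i)) (fun μ i => μ (σ.symm i))
    · intro μ hμ
      rw [Finset.mem_filter] at hμ ⊢
      refine ⟨hΛσ μ hμ.1, ?_⟩
      have e1 : σ.symm star = j := by rw [hss, hσ, Equiv.swap_apply_right]
      change μ (σ.symm star) ≠ 0
      rw [e1]
      exact hμ.2
    · intro μ hμ
      rw [Finset.mem_filter] at hμ ⊢
      refine ⟨hΛσ μ hμ.1, ?_⟩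
      have e1 : σ.symm j = star := by rw [hss, hσ, Equiv.swap_apply_left]
      change μ (σ.symm j) ≠ 0
      rw [e1]
      exact hμ.2
    · intro μ _
      ext i
      simp [hss, hσ]
    · intro μ _
      ext i
      simp [hss, hσ]
    · intro μ _
      exact (hw_act wt act hact hinv σ μ).symm
  -- double counting
  have hdc : ∑ j : Ω, ∑ μ ∈ Λ.filter (fun μ => μ j ≠ 0), hw wt D0 μ ≤
      N * ∑ μ ∈ Λ, hw wt D0 μ := by
    have h1 : ∀ j : Ω, ∑ μ ∈ Λ.filter (fun μ => μ j ≠ 0), hw wt D0 μ =
        ∑ μ ∈ Λ, if μ j ≠ 0 then hw wt D0 μ else 0 := fun j => Finset.sum_filter _ _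
    simp only [h1]
    rw [Finset.sum_comm, Finset.mul_sum]
    apply Finset.sum_le_sum
    intro μ hμ
    obtain ⟨e, _, rfl⟩ := Finset.mem_image.1 hμ
    rw [← Finset.sum_filter, Finset.sum_const, nsmul_eq_mul]
    apply mul_le_mul_of_nonneg_right _ (hnn _)
    exact_mod_cast hN e
  simp only [hsym] at hdc
  rw [Finset.sum_const, Finset.card_univ, nsmul_eq_mul] at hdc
  set T := ∑ μ ∈ Λ, hw wt D0 μ with hT
  set T1 := ∑ μ ∈ Λ.filter (fun μ => μ star ≠ 0), hw wt D0 μ with hT1
  have hT10 : 0 ≤ T1 := Finset.sum_nonneg fun μ _ => hnn μ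
  have hT0 : 0 ≤ T := Finset.sum_nonneg fun μ _ => hnn μ
  have hTT : T ≤ 2 * T1 := by omega
  have hTz : T = 0 := by
    by_contra hne
    have hTpos : 0 < T := lt_of_le_of_ne hT0 (Ne.symm hne)
    have h1 : (Fintype.card Ω : ℤ) * T ≤ 2 * (N * T) := by
      have := mul_le_mul_of_nonneg_left hTT (Nat.cast_nonneg (Fintype.card Ω) : (0 : ℤ) ≤ _)
      nlinarith
    have h2 : (2 * N + 1 : ℤ) ≤ Fintype.card Ω := by exact_mod_cast hNΩ
    have h3 := mul_le_mul_of_nonneg_right h2 hT0
    nlinarith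
  -- rank of `D0`
  have hrk : Fintype.card E ≤ 2 * D0.rank := by
    have h1 := hsum (fun _ => True)
    simp only [Finset.filter_true] at h1
    rw [← hT, hTz] at h1
    have h2 := rank_blocks D0 wt (fun μ => μ star)
      (fun e e' h => Or.inl (hD0wt e e' h)) Λ
    have h3 : (res D0 fun e => wt e ∈ Λ) = D0 := by
      ext e e'
      rw [res_apply, if_pos ⟨hmemΛ e, hmemΛ e'⟩]
    rw [h3] at h2
    have h2' : ∑ μ ∈ Λ, ((res D0 fun e => wt e = μ).rank : ℤ) ≤ D0.rank := by exact_mod_cast h2
    have h4 : (Finset.univ : Finset E).card = Fintype.card E := rfl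
    omega
  obtain ⟨h, K, hK1, hK2, _⟩ := exists_homotopy (P := (1 : Matrix E E ℝ)) (M := D0) (by simp)
    (by simp) (by simp) h00
  rw [Matrix.rank_one] at hK2
  have hK0 : K = 0 := eq_zero_of_rank (by omega)
  rw [hK0, add_zero] at hK1
  -- injectivity
  rw [← Matrix.mulVec_injective_iff_isUnit]
  have hinj : ∀ v : E → ℝ, (D0 * D0ᵀ + D0ᵀ * D0) *ᵥ v = 0 → v = 0 := by
    intro v hv
    have h1 : (D0ᵀ *ᵥ v) ⬝ᵥ (D0ᵀ *ᵥ v) + (D0 *ᵥ v) ⬝ᵥ (D0 *ᵥ v) = 0 := by
      have h2 : v ⬝ᵥ ((D0 * D0ᵀ + D0ᵀ * D0) *ᵥ v) = 0 := by rw [hv]; simp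
      rw [add_mulVec, dotProduct_add, ← mulVec_mulVec, ← mulVec_mulVec] at h2
      rw [← h2]
      congr 1
      · rw [dotProduct_mulVec v D0, ← mulVec_transpose]
      · rw [dotProduct_mulVec v D0ᵀ, ← mulVec_transpose, transpose_transpose]
    have h2 : 0 ≤ (D0ᵀ *ᵥ v) ⬝ᵥ (D0ᵀ *ᵥ v) := Finset.sum_nonneg fun i _ => mul_self_nonneg _
    have h3 : 0 ≤ (D0 *ᵥ v) ⬝ᵥ (D0 *ᵥ v) := Finset.sum_nonneg fun i _ => mul_self_nonneg _
    have h4 : D0ᵀ *ᵥ v = 0 := dotProduct_self_eq_zero.1 (by linarith)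
    have h5 : D0 *ᵥ v = 0 := dotProduct_self_eq_zero.1 (by linarith)
    have h6 : v = D0 *ᵥ (h *ᵥ v) := by
      calc v = (1 : Matrix E E ℝ) *ᵥ v := (one_mulVec v).symm
        _ = (D0 * h + h * D0) *ᵥ v := by rw [← hK1]
        _ = D0 *ᵥ (h *ᵥ v) + h *ᵥ (D0 *ᵥ v) := by
          rw [add_mulVec, mulVec_mulVec, mulVec_mulVec]
        _ = D0 *ᵥ (h *ᵥ v) := by rw [h5, mulVec_zero, add_zero]
    apply dotProduct_self_eq_zero.1
    calc v ⬝ᵥ v = v ⬝ᵥ (D0 *ᵥ (h *ᵥ v)) := by rw [← h6]
      _ = (D0ᵀ *ᵥ v) ⬝ᵥ (h *ᵥ v) := by rw [dotProduct_mulVec, ← mulVec_transpose]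
      _ = 0 := by rw [h4, zero_dotProduct]
  intro v w hvw
  have := hinj (v - w) (by rw [mulVec_sub]; exact sub_eq_zero.2 hvw)
  exact sub_eq_zero.1 this

end Pool.Agent.H38.TT
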