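import Mathlib

/-!
Rank inequalities for square zero matrices with a block triangular structure, used for Lemma L of
MP_ca4e36_al.
-/

set_option autoImplicit false

open Matrix

namespace Pool.Agent.H38.TT

variable {E : Type*} [Fintype E] [DecidableEq E]

theorem rank_add_le' (A B : Matrix E E ℝ) : (A + B).rank ≤ A.rank + B.rank := by
  unfold Matrix.rank
  rw [Matrix.mulVecLin_add]
  refine le_trans (Submodule.finrank_mono ?_)
    (Submodule.finrank_add_le_finrank_add_finrank _ _)
  rintro _ ⟨x, rfl⟩
  exact Submodule.add_mem_sup ⟨x, rfl⟩ ⟨x, rfl⟩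

theorem rank_sum_le' {ι : Type*} (s : Finset ι) (f : ι → Matrix E E ℝ) :
    (∑ i ∈ s, f i).rank ≤ ∑ i ∈ s, (f i).rank := by
  classical
  induction s using Finset.induction_on with
  | empty => simp
  | insert a s ha ih =>
    rw [Finset.sum_insert ha, Finset.sum_insert ha]
    exact (rank_add_le' _ _).trans (Nat.add_le_add_left ih _)

theorem rank_neg' (A : Matrix E E ℝ) : (-A).rank ≤ A.rank := by
  have : -A = (-1) * A := by simp
  rw [this]
  exact rank_mul_le_right _ _

/-- reflexive generalised inverse -/
theorem exists_ginv (M : Matrix E E ℝ) : ∃ g : Matrix E E ℝ, M * g * M = M ∧ g * M * g = g := by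
  obtain ⟨V, U, e, hV, hU, h⟩ := Matrix.exists_rank_normal_form M
  set J : Matrix E E ℝ := (fromBlocks 1 0 0 0).submatrix e e with hJ
  have hJJ : J * J = J := by
    rw [hJ, Matrix.submatrix_mul_equiv, fromBlocks_multiply]
    simp
  obtain ⟨V', hV1, hV2⟩ : ∃ V', V' * V = 1 ∧ V * V' = 1 := by
    obtain ⟨v, rfl⟩ := hV
    exact ⟨↑v⁻¹, v.inv_mul, v.mul_inv⟩
  obtain ⟨U', hU1, hU2⟩ : ∃ U', U' * U = 1 ∧ U * U' = 1 := by
    obtain ⟨u, rfl⟩ := hU
    exact ⟨↑u⁻¹, u.inv_mul, u.mul_inv⟩
  have hM : M = V' * J * U' := by
    rw [← h]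
    calc M = (V' * V) * M * (U * U') := by rw [hV1, hU2]; simp
      _ = _ := by simp only [mul_assoc]
  refine ⟨U * J * V, ?_, ?_⟩
  · calc M * (U * J * V) * M = V' * J * (U' * U) * J * (V * V') * J * U' := by
          rw [hM]; simp only [mul_assoc]
      _ = V' * (J * J * J) * U' := by rw [hU1, hV2]; simp only [mul_one, mul_assoc]
      _ = M := by rw [hJJ, hJJ, hM]
  · calc U * J * V * M * (U * J * V) = U * J * (V * V') * J * (U' * U) * J * V := by
          rw [hM]; simp only [mul_assoc]
      _ = U * (J * J * J) * V := by rw [hU1, hV2]; simp only [mul_one, mul_assoc]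
      _ = U * J * V := by rw [hJJ, hJJ]

/-- the rank of an idempotent matrix is its trace -/
theorem rank_idem {e : Matrix E E ℝ} (h : e * e = e) : (e.rank : ℝ) = e.trace := by
  have h1 : IsIdempotentElem (Matrix.toLin' e) := by
    unfold IsIdempotentElem
    rw [Module.End.mul_eq_comp, ← Matrix.toLin'_mul, h]
  have h2 := (LinearMap.IsIdempotentElem.isProj_range _ h1).trace
  rw [Matrix.trace_toLin'_eq] at h2
  rw [h2]
  rfl

theorem rank_idem_add {e f : Matrix E E ℝ} (he : e * e = e) (hf : f * f = f) (h1 : e * f = 0)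
    (h2 : f * e = 0) : (e + f).rank = e.rank + f.rank := by
  have h3 : (e + f) * (e + f) = e + f := by
    rw [add_mul, mul_add, mul_add, he, hf, h1, h2]; simp
  have h4 := rank_idem h3
  rw [trace_add, ← rank_idem he, ← rank_idem hf] at h4
  exact_mod_cast h4

theorem rank_idem_sub {P e : Matrix E E ℝ} (hP : P * P = P) (he : e * e = e) (h1 : P * e = e)
    (h2 : e * P = e) : (P - e).rank + e.rank = P.rank := by
  have h3 : (P - e) * (P - e) = P - e := by
    rw [sub_mul, mul_sub, mul_sub, hP, he, h1, h2]; simp
  have h4 := rank_idem_add h3 he (by rw [sub_mul, h1, he, sub_self])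
    (by rw [mul_sub, h2, he, sub_self])
  rw [sub_add_cancel] at h4
  exact h4.symm

/-- Homotopy operator for a square zero matrix in the corner of the idempotent `P`. -/
theorem exists_homotopy {P M : Matrix E E ℝ} (hP : P * P = P) (hPM : P * M = M) (hMP : M * P = M)
    (hM : M * M = 0) : ∃ h K : Matrix E E ℝ, P = M * h + h * M + K ∧ K.rank + 2 * M.rank = P.rank ∧
      P * h = h ∧ h * P = h ∧ P * K = K ∧ K * P = K := by
  obtain ⟨g₀, hg₀, -⟩ := exists_ginv M
  set g := P * g₀ * P with hg
  have hPg : P * g = g := by rw [hg, ← mul_assoc, ← mul_assoc, hP]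
  have hgP : g * P = g := by rw [hg, mul_assoc, hP]
  have hMg : M * g * M = M := by
    calc M * g * M = (M * P) * g₀ * (P * M) := by rw [hg]; simp only [mul_assoc]
      _ = M := by rw [hMP, hPM, hg₀]
  set e := M * g with he
  set h := (P - e) * g with hh
  have hee : e * e = e := by
    calc e * e = M * g * M * g := by rw [he]; simp only [mul_assoc]
      _ = e := by rw [hMg]
  have heM : e * M = M := by rw [he, hMg]
  have hMe : M * e = 0 := by rw [he, ← mul_assoc, hM, zero_mul]
  have hPe : P * e = e := by rw [he, ← mul_assoc, hPM]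
  have heP : e * P = e := by rw [he, mul_assoc, hgP]
  have hMh : M * h = e := by
    rw [hh, ← mul_assoc, mul_sub, hMP, hMe, sub_zero]
  set f := h * M with hf
  have hMf : M * f = M := by rw [hf, ← mul_assoc, hMh, heM]
  have hff : f * f = f := by
    calc f * f = h * (M * f) := by rw [hf, mul_assoc]
      _ = f := by rw [hMf]
  have hef : e * f = 0 := by
    have : e * h = 0 := by rw [hh, ← mul_assoc, mul_sub, heP, hee, sub_self, zero_mul]
    rw [hf, ← mul_assoc, this, zero_mul]
  have hfe : f * e = 0 := by rw [hf, mul_assoc, hMe, mul_zero]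
  have hPh : P * h = h := by rw [hh, ← mul_assoc, mul_sub, hP, hPe]
  have hhP : h * P = h := by rw [hh, mul_assoc, hgP]
  have hPf : P * f = f := by rw [hf, ← mul_assoc, hPh]
  have hfP : f * P = f := by rw [hf, mul_assoc, hMP]
  have hre : e.rank = M.rank := by
    apply le_antisymm
    · rw [he]; exact rank_mul_le_left _ _
    · calc M.rank = (e * M).rank := by rw [heM]
        _ ≤ e.rank := rank_mul_le_left _ _
  have hrf : f.rank = M.rank := by
    apply le_antisymm
    · rw [hf]; exact rank_mul_le_right _ _
    · calc M.rank = (M * f).rank := by rw [hMf]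
        _ ≤ f.rank := rank_mul_le_right _ _
  refine ⟨h, P - (e + f), ?_, ?_, hPh, hhP, ?_, ?_⟩
  · rw [hMh, ← hf]; abel
  · have h1 : (e + f) * (e + f) = e + f := by
      rw [add_mul, mul_add, mul_add, hee, hff, hef, hfe]; simp
    have h2 := rank_idem_sub hP h1 (by rw [mul_add, hPe, hPf]) (by rw [add_mul, heP, hfP])
    rw [rank_idem_add hee hff hef hfe, hre, hrf] at h2
    omega
  · rw [mul_sub, hP, mul_add, hPe, hPf]
  · rw [sub_mul, hP, add_mul, heP, hfP]

/-- Two blocks: the homology of the sub block is bounded by the homology of the total matrix and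
the homology of the quotient block (`h(P, M) = rank P - 2 rank M`). -/
theorem two_block {P Q D : Matrix E E ℝ} (hP : P * P = P) (hQ : Q * Q = Q) (hPQ : P * Q = 0)
    (hQP : Q * P = 0) (hD1 : (P + Q) * D = D) (hD2 : D * (P + Q) = D) (hQDP : Q * D * P = 0)
    (hD : D * D = 0) :
    P.rank + 2 * D.rank + 2 * (Q * D * Q).rank ≤ 2 * (P * D * P).rank + (P + Q).rank + Q.rank := by
  set R := P + Q with hR
  have hRR : R * R = R := by
    rw [hR, add_mul, mul_add, mul_add, hP, hQ, hPQ, hQP]; simp
  set A := P * D * P with hA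
  set C := Q * D * Q with hC
  set Z := P * D * Q with hZ
  have hDP : D * P = A := by
    calc D * P = (P + Q) * D * P := by rw [hD1]
      _ = P * D * P + Q * D * P := by rw [add_mul, add_mul]
      _ = A := by rw [hQDP, add_zero]
  have hPD : P * D = A + Z := by
    calc P * D = P * (D * (P + Q)) := by rw [hD2]
      _ = A + Z := by rw [mul_add, mul_add, ← mul_assoc, ← mul_assoc]
  have hQD : Q * D = C := by
    calc Q * D = Q * (D * (P + Q)) := by rw [hD2]
      _ = Q * D * P + Q * D * Q := by rw [mul_add, mul_add, ← mul_assoc, ← mul_assoc]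
      _ = C := by rw [hQDP, zero_add]
  have hQC : Q * C = C := by rw [hC, ← mul_assoc, ← mul_assoc, hQ]
  have hCQ : C * Q = C := by rw [hC, mul_assoc, hQ]
  have hZQ : Z * Q = Z := by rw [hZ, mul_assoc, hQ]
  have hPZ : P * Z = Z := by rw [hZ, ← mul_assoc, ← mul_assoc, hP]
  have hCC : C * C = 0 := by
    calc C * C = C * (Q * D) := by rw [hQD]
      _ = C * Q * D := (mul_assoc C Q D).symm
      _ = Q * D * D := by rw [hCQ, hQD]
      _ = Q * (D * D) := mul_assoc _ _ _
      _ = 0 := by rw [hD, mul_zero]
  have hZC : Z * C = -(A * Z) := by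
    have h1 : P * D * D * Q = 0 := by rw [mul_assoc P D D, hD, mul_zero, zero_mul]
    rw [hPD, add_mul, add_mul] at h1
    have h2 : A * D * Q = A * Z := by
      calc A * D * Q = A * P * D * Q := by
            rw [hA, mul_assoc (P * D) P P, hP]
        _ = A * Z := by rw [hZ]; simp only [mul_assoc]
    have h3 : Z * D * Q = Z * C := by
      calc Z * D * Q = Z * Q * D * Q := by rw [hZQ]
        _ = Z * C := by rw [hC]; simp only [mul_assoc]
    rw [h2, h3] at h1
    exact eq_neg_of_add_eq_zero_right h1
  obtain ⟨H, KD, hH, hrD, hRH, hHR, hRK, hKR⟩ := exists_homotopy hRR hD1 hD2 hD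
  obtain ⟨h, KC, hh, hrC, hQh, hhQ, hQK, hKQ⟩ := exists_homotopy hQ hQC hCQ hCC
  have hPR : P * R = P := by rw [hR, mul_add, hP, hPQ, add_zero]
  have hRP : R * P = P := by rw [hR, add_mul, hP, hQP, add_zero]
  have hQRP : Q * R * P = 0 := by rw [mul_assoc, hRP, hQP]
  -- the identity
  have key : P = A * (H * P - Z * h * H * P) + (P * H - Z * h * H) * A + Z * KC * (H * P) +
      (P - Z * h) * KD * P := by
    have e1 : P = P * R * P := by rw [hPR, hP]
    have e2 : P * R * P = (A + Z) * H * P + P * H * A + P * KD * P := by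
      rw [hH]
      calc P * (D * H + H * D + KD) * P = (P * D) * H * P + P * H * (D * P) + P * KD * P := by
            simp only [mul_add, add_mul, mul_assoc]
        _ = _ := by rw [hPD, hDP]
    have e3 : Z * H * P = -(A * (Z * h * H * P)) - Z * h * H * A - Z * h * KD * P +
        Z * KC * (H * P) := by
      have f1 : Q * D * H * P = -(Q * H * A) - Q * KD * P := by
        have f2 : D * H = R - H * D - KD := by rw [hH]; abel
        calc Q * D * H * P = Q * (D * H) * P := by rw [mul_assoc Q D H]
          _ = Q * R * P - Q * H * (D * P) - Q * KD * P := by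
            rw [f2]; simp only [mul_sub, sub_mul, mul_assoc]
          _ = _ := by rw [hQRP, hDP]; abel
      calc Z * H * P = Z * Q * H * P := by rw [hZQ]
        _ = Z * (C * h + h * C + KC) * H * P := by rw [← hh]
        _ = Z * C * h * H * P + Z * h * (C * H * P) + Z * KC * (H * P) := by
          simp only [mul_add, add_mul, mul_assoc]
        _ = Z * C * h * H * P + Z * h * (Q * D * H * P) + Z * KC * (H * P) := by rw [hQD]
        _ = _ := by
          rw [hZC, f1]
          have f3 : Z * h * (-(Q * H * A) - Q * KD * P) =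
              -(Z * (h * Q) * H * A) - Z * (h * Q) * KD * P := by
            simp only [mul_sub, mul_neg, mul_assoc]
          rw [f3, hhQ]
          simp only [neg_mul, mul_assoc]
          abel
    calc P = (A + Z) * H * P + P * H * A + P * KD * P := e1.trans e2
      _ = A * H * P + Z * H * P + P * H * A + P * KD * P := by
        rw [add_mul, add_mul]
      _ = _ := by
        rw [e3]
        simp only [mul_sub, sub_mul, mul_assoc]
        abel
  have hrank : P.rank ≤ A.rank + A.rank + KC.rank + KD.rank := by
    have k1 : (A * (H * P - Z * h * H * P)).rank ≤ A.rank := rank_mul_le_left _ _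
    have k2 : ((P * H - Z * h * H) * A).rank ≤ A.rank := rank_mul_le_right _ _
    have k3 : (Z * KC * (H * P)).rank ≤ KC.rank :=
      (rank_mul_le_left _ _).trans (rank_mul_le_right _ _)
    have k4 : ((P - Z * h) * KD * P).rank ≤ KD.rank :=
      (rank_mul_le_left _ _).trans (rank_mul_le_right _ _)
    calc P.rank = _ := congrArg Matrix.rank key
      _ ≤ (A * (H * P - Z * h * H * P)).rank + ((P * H - Z * h * H) * A).rank +
          (Z * KC * (H * P)).rank + ((P - Z * h) * KD * P).rank :=
        (rank_add_le' _ _).trans (Nat.add_le_add_right ((rank_add_le' _ _).trans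
          (Nat.add_le_add_right (rank_add_le' _ _) _)) _)
      _ ≤ _ := by omega
  omega

/-- Two blocks: the rank of a block triangular matrix is at least the sum of the ranks of the
diagonal blocks. -/
theorem two_block_rank {P Q D : Matrix E E ℝ} (hP : P * P = P) (hQ : Q * Q = Q) (hPQ : P * Q = 0)
    (hQP : Q * P = 0) (hQDP : Q * D * P = 0) :
    (P * D * P).rank + (Q * D * Q).rank ≤ D.rank := by
  set A := P * D * P with hA
  set C := Q * D * Q with hC
  have hPA : P * A = A := by rw [hA, ← mul_assoc, ← mul_assoc, hP]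
  have hAP : A * P = A := by rw [hA, mul_assoc, hP]
  have hQC : Q * C = C := by rw [hC, ← mul_assoc, ← mul_assoc, hQ]
  have hCQ : C * Q = C := by rw [hC, mul_assoc, hQ]
  obtain ⟨a₀, ha₀, -⟩ := exists_ginv A
  obtain ⟨c₀, hc₀, hc₀'⟩ := exists_ginv C
  set a := P * a₀ * P with ha
  set c := Q * c₀ * Q with hc
  have hAa : A * a * A = A := by
    calc A * a * A = (A * P) * a₀ * (P * A) := by rw [ha]; simp only [mul_assoc]
      _ = A := by rw [hAP, hPA, ha₀]
  have hCc : C * c * C = C := by
    calc C * c * C = (C * Q) * c₀ * (Q * C) := by rw [hc]; simp only [mul_assoc]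
      _ = C := by rw [hCQ, hQC, hc₀]
  have hcC : c * C * c = c := by
    calc c * C * c = Q * (c₀ * (Q * C * Q) * c₀) * Q := by rw [hc]; simp only [mul_assoc]
      _ = c := by rw [hQC, hCQ, hc₀', hc]
  have haP : a * P = a := by rw [ha, mul_assoc, hP]
  have hPa : P * a = a := by rw [ha, ← mul_assoc, ← mul_assoc, hP]
  have hQc : Q * c = c := by rw [hc, ← mul_assoc, ← mul_assoc, hQ]
  have hcQ : c * Q = c := by rw [hc, mul_assoc, hQ]
  set e := A * a with he
  set f := C * c with hf
  have hee : e * e = e := by
    calc e * e = A * a * A * a := by rw [he]; simp only [mul_assoc]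
      _ = e := by rw [hAa]
  have hff : f * f = f := by
    calc f * f = C * c * C * c := by rw [hf]; simp only [mul_assoc]
      _ = f := by rw [hCc]
  have heP : e * P = e := by rw [he, mul_assoc, haP]
  have hPe : P * e = e := by rw [he, ← mul_assoc, hPA]
  have hfQ : f * Q = f := by rw [hf, mul_assoc, hcQ]
  have hQf : Q * f = f := by rw [hf, ← mul_assoc, hQC]
  have hef : e * f = 0 := by rw [← heP, ← hQf, mul_assoc, ← mul_assoc P, hPQ]; simp
  have hfe : f * e = 0 := by rw [← hfQ, ← hPe, mul_assoc, ← mul_assoc Q, hQP]; simp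
  have hre : e.rank = A.rank := by
    apply le_antisymm
    · rw [he]; exact rank_mul_le_left _ _
    · calc A.rank = (e * A).rank := by rw [he, hAa]
        _ ≤ e.rank := rank_mul_le_left _ _
  have hrf : f.rank = C.rank := by
    apply le_antisymm
    · rw [hf]; exact rank_mul_le_left _ _
    · calc C.rank = (f * C).rank := by rw [hf, hCc]
        _ ≤ f.rank := rank_mul_le_left _ _
  -- `(e + f) D (a + c) = e + e D c + f`
  have hPDa : P * D * a = e := by
    calc P * D * a = P * D * (P * a) := by rw [hPa]
      _ = e := by rw [he, hA]; simp only [mul_assoc]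
  have hQDa : Q * D * a = 0 := by
    calc Q * D * a = Q * D * P * a := by rw [mul_assoc (Q * D) P a, hPa]
      _ = 0 := by rw [hQDP, zero_mul]
  have hQDc : Q * D * c = f := by
    calc Q * D * c = Q * D * (Q * c) := by rw [hQc]
      _ = f := by rw [hf, hC]; simp only [mul_assoc]
  have h1 : (e + f) * D * (a + c) = e + e * D * c + f := by
    have k1 : e * D * a = e := by
      calc e * D * a = e * (P * D * a) := by
            rw [← heP]; simp only [mul_assoc]; rw [← mul_assoc P P, hP]
        _ = e := by rw [hPDa, hee]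
    have k2 : f * D * a = 0 := by
      calc f * D * a = f * (Q * D * a) := by
            rw [← hfQ]; simp only [mul_assoc]; rw [← mul_assoc Q Q, hQ]
        _ = 0 := by rw [hQDa, mul_zero]
    have k3 : f * D * c = f := by
      calc f * D * c = f * (Q * D * c) := by
            rw [← hfQ]; simp only [mul_assoc]; rw [← mul_assoc Q Q, hQ]
        _ = f := by rw [hQDc, hff]
    rw [add_mul, add_mul, mul_add, mul_add, k1, k2, k3]; simp
  have h2 : (e + e * D * c + f) * (1 - e * D * c * f) = e + f := by
    have k1 : c * f = c := by rw [hf, ← mul_assoc, hcC]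
    have k2 : e * D * c * f = e * D * c := by rw [mul_assoc, k1]
    have k3 : e * (e * D * c) = e * D * c := by
      calc e * (e * D * c) = (e * e) * D * c := by simp only [mul_assoc]
        _ = _ := by rw [hee]
    have k4 : e * D * c * (e * D * c) = 0 := by
      have : c * e = 0 := by rw [← hcQ, ← hPe, mul_assoc, ← mul_assoc Q, hQP]; simp
      calc e * D * c * (e * D * c) = e * D * (c * e) * D * c := by simp only [mul_assoc]
        _ = 0 := by rw [this]; simp
    have k5 : f * (e * D * c) = 0 := by
      calc f * (e * D * c) = (f * e) * D * c := by simp only [mul_assoc]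
        _ = _ := by rw [hfe]; simp
    rw [k2, mul_sub, mul_one, add_mul, add_mul, k3, k4, k5]
    abel
  calc A.rank + C.rank = (e + f).rank := by rw [rank_idem_add hee hff hef hfe, hre, hrf]
    _ = ((e + f) * D * (a + c) * (1 - e * D * c * f)).rank := by rw [h1, h2]
    _ ≤ D.rank := by
      refine (rank_mul_le_left _ _).trans ?_
      refine (rank_mul_le_left _ _).trans ?_
      exact rank_mul_le_right _ _

end Pool.Agent.H38.TT
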